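import Pool.Agent.WIR.StmtsE

/-!
Row KAP of squad WIR.
-/

set_option autoImplicit false

namespace Pool.Agent.WIR.H90

open Nat in
theorem kap_id (l K r s : ℕ) :
    (l + K).choose l * (l + r + (K + s)).descFactorial (r + s)
      = (l + r + (K + s)).choose (l + r) * (l + r).descFactorial r * (K + s).descFactorial s := by
  have h1 : (l + K).choose l * l ! * K ! = (l + K)! := by
    have := Nat.choose_mul_factorial_mul_factorial (Nat.le_add_right l K)
    rwa [Nat.add_sub_cancel_left] at this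
  have h2 : (l + r + (K + s)).choose (l + r) * (l + r)! * (K + s)! = (l + r + (K + s))! := by
    have := Nat.choose_mul_factorial_mul_factorial (Nat.le_add_right (l + r) (K + s))
    rwa [Nat.add_sub_cancel_left] at this
  have h3 : l ! * (l + r).descFactorial r = (l + r)! := by
    have := Nat.factorial_mul_descFactorial (Nat.le_add_left r l)
    rwa [Nat.add_sub_cancel] at this
  have h4 : K ! * (K + s).descFactorial s = (K + s)! := by
    have := Nat.factorial_mul_descFactorial (Nat.le_add_left s K)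
    rwa [Nat.add_sub_cancel] at this
  have h5 : (l + K)! * (l + r + (K + s)).descFactorial (r + s) = (l + r + (K + s))! := by
    have := Nat.factorial_mul_descFactorial (n := l + r + (K + s)) (k := r + s) (by omega)
    have e : l + r + (K + s) - (r + s) = l + K := by omega
    rwa [e] at this
  have h6 : 0 < l ! * K ! := Nat.mul_pos (Nat.factorial_pos l) (Nat.factorial_pos K)
  apply Nat.eq_of_mul_eq_mul_left h6
  calc l ! * K ! * ((l + K).choose l * (l + r + (K + s)).descFactorial (r + s))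
      = (l + K).choose l * l ! * K ! * (l + r + (K + s)).descFactorial (r + s) := by ring
    _ = (l + r + (K + s)).choose (l + r) * (l + r)! * (K + s)! := by rw [h1, h5, h2]
    _ = (l + r + (K + s)).choose (l + r) * (l ! * (l + r).descFactorial r)
        * (K ! * (K + s).descFactorial s) := by rw [h3, h4]
    _ = l ! * K ! * ((l + r + (K + s)).choose (l + r) * (l + r).descFactorial r
        * (K + s).descFactorial s) := by ring

/-- the inequality for the falling factorials -/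
theorem kap_core (m M l r : ℕ) (hm : 24 ≤ m) (hM : m ^ 6 ≤ M)
    (hl : |2 * (l : ℤ) - M| ≤ (m : ℤ) ^ 4) (hr : r ≤ 3 * m) (hlM : l ≤ M) :
    |(2 : ℝ) ^ (3 * m) * (l.descFactorial r : ℝ) * ((M - l).descFactorial (3 * m - r) : ℝ)
      - (M.descFactorial (3 * m) : ℝ)| ≤ 24 / m * (M.descFactorial (3 * m) : ℝ) := by
  have hm0 : (24 : ℝ) ≤ m := by exact_mod_cast hm
  have hM' : (m : ℝ) ^ 6 ≤ M := by exact_mod_cast hM
  have hl1 : 2 * (l : ℝ) ≤ M + (m : ℝ) ^ 4 := by
    have h := (abs_le.mp hl).2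
    have h' : 2 * (l : ℤ) ≤ M + (m : ℤ) ^ 4 := by linarith
    exact_mod_cast h'
  have hl2 : (M : ℝ) - (m : ℝ) ^ 4 ≤ 2 * l := by
    have h := (abs_le.mp hl).1
    have h' : (M : ℤ) - (m : ℤ) ^ 4 ≤ 2 * l := by linarith
    exact_mod_cast h'
  obtain ⟨K, hK⟩ : ∃ K, K = M - l := ⟨_, rfl⟩
  obtain ⟨s, hs⟩ : ∃ s, s = 3 * m - r := ⟨_, rfl⟩
  have hKM : (K : ℝ) = M - l := by rw [hK, Nat.cast_sub hlM]
  have ha : 3 * m = r + s := by omega
  have ha' : (3 : ℝ) * m = r + s := by exact_mod_cast ha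
  rw [← hK, ← hs]
  -- sizes
  have hmp : (0 : ℝ) < m := by linarith
  have h46 : 576 * (m : ℝ) ^ 4 ≤ (m : ℝ) ^ 6 := by
    have : (576 : ℝ) ≤ (m : ℝ) ^ 2 := by nlinarith
    calc 576 * (m : ℝ) ^ 4 ≤ (m : ℝ) ^ 2 * (m : ℝ) ^ 4 :=
          mul_le_mul_of_nonneg_right this (by positivity)
      _ = (m : ℝ) ^ 6 := by ring
  have h14 : 576 * (m : ℝ) ≤ (m : ℝ) ^ 4 := by
    have : (576 : ℝ) ≤ (m : ℝ) ^ 3 := by
      have h1 : (576 : ℝ) ≤ (m : ℝ) ^ 2 := by nlinarith
      have h2 : (m : ℝ) ^ 2 ≤ (m : ℝ) ^ 3 := pow_le_pow_right₀ (by linarith) (by norm_num)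
      linarith
    calc 576 * (m : ℝ) ≤ (m : ℝ) ^ 3 * m := mul_le_mul_of_nonneg_right this hmp.le
      _ = (m : ℝ) ^ 4 := by ring
  have hMp : 0 < (M : ℝ) := lt_of_lt_of_le (by positivity) hM'
  obtain ⟨P, hP⟩ : ∃ P : ℝ, P = (2 : ℝ) ^ (3 * m) * (l.descFactorial r : ℝ)
    * (K.descFactorial s : ℝ) := ⟨_, rfl⟩
  obtain ⟨Q, hQ⟩ : ∃ Q : ℝ, Q = (M.descFactorial (3 * m) : ℝ) := ⟨_, rfl⟩
  rw [← hP, ← hQ]
  -- upper bound of P
  have hP1 : P ≤ (M + (m : ℝ) ^ 4) ^ (3 * m) := by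
    have h1 : (l.descFactorial r : ℝ) ≤ (l : ℝ) ^ r := by
      exact_mod_cast Nat.descFactorial_le_pow l r
    have h2 : (K.descFactorial s : ℝ) ≤ (K : ℝ) ^ s := by
      exact_mod_cast Nat.descFactorial_le_pow K s
    calc P ≤ (2 : ℝ) ^ (3 * m) * (l : ℝ) ^ r * (K : ℝ) ^ s := by
          rw [hP]
          gcongr
      _ = (2 * (l : ℝ)) ^ r * (2 * (K : ℝ)) ^ s := by
          rw [ha, pow_add, mul_pow, mul_pow]
          ring
      _ ≤ (M + (m : ℝ) ^ 4) ^ r * (M + (m : ℝ) ^ 4) ^ s := by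
          have h3 : 2 * (K : ℝ) ≤ M + (m : ℝ) ^ 4 := by rw [hKM]; linarith
          gcongr
      _ = (M + (m : ℝ) ^ 4) ^ (3 * m) := by rw [← pow_add, ← ha]
  -- lower bound of P
  have hP2 : (M - (m : ℝ) ^ 4 - 6 * m) ^ (3 * m) ≤ P := by
    have h1 : ((l : ℝ) - 3 * m) ^ r ≤ (l.descFactorial r : ℝ) := by
      have h := Nat.pow_sub_le_descFactorial l r
      have h' : ((l + 1 - r : ℕ) : ℝ) ^ r ≤ (l.descFactorial r : ℝ) := by exact_mod_cast h
      refine le_trans (pow_le_pow_left₀ ?_ ?_ r) h'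
      · linarith
      · have hrl : r ≤ l + 1 := by
          have : (r : ℝ) ≤ l := by
            have : (r : ℝ) ≤ 3 * m := by exact_mod_cast hr
            linarith
          have : r ≤ l := by exact_mod_cast this
          omega
        rw [Nat.cast_sub hrl]
        push_cast
        have : (r : ℝ) ≤ 3 * m := by exact_mod_cast hr
        linarith
    have h2 : ((K : ℝ) - 3 * m) ^ s ≤ (K.descFactorial s : ℝ) := by
      have h := Nat.pow_sub_le_descFactorial K s
      have h' : ((K + 1 - s : ℕ) : ℝ) ^ s ≤ (K.descFactorial s : ℝ) := by exact_mod_cast h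
      have hs3 : (s : ℝ) ≤ 3 * m := by
        rw [ha']
        have : (0 : ℝ) ≤ r := by positivity
        linarith
      refine le_trans (pow_le_pow_left₀ ?_ ?_ s) h'
      · rw [hKM]
        linarith
      · have hrl : s ≤ K + 1 := by
          have : (s : ℝ) ≤ K := by
            rw [hKM]
            linarith
          have : s ≤ K := by exact_mod_cast this
          omega
        rw [Nat.cast_sub hrl]
        push_cast
        linarith
    have h3 : (0 : ℝ) ≤ M - (m : ℝ) ^ 4 - 6 * m := by linarith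
    have h4 : M - (m : ℝ) ^ 4 - 6 * m ≤ 2 * ((l : ℝ) - 3 * m) := by linarith
    have h5 : M - (m : ℝ) ^ 4 - 6 * m ≤ 2 * ((K : ℝ) - 3 * m) := by rw [hKM]; linarith
    have h6 : (0 : ℝ) ≤ (l : ℝ) - 3 * m := by linarith
    have h7 : (0 : ℝ) ≤ (K : ℝ) - 3 * m := by linarith
    calc (M - (m : ℝ) ^ 4 - 6 * m) ^ (3 * m)
        = (M - (m : ℝ) ^ 4 - 6 * m) ^ r * (M - (m : ℝ) ^ 4 - 6 * m) ^ s := by
          rw [ha, pow_add]
      _ ≤ (2 * ((l : ℝ) - 3 * m)) ^ r * (2 * ((K : ℝ) - 3 * m)) ^ s := by gcongr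
      _ = (2 : ℝ) ^ (3 * m) * ((l : ℝ) - 3 * m) ^ r * ((K : ℝ) - 3 * m) ^ s := by
          rw [mul_pow, mul_pow, ha, pow_add]
          ring
      _ ≤ P := by
          rw [hP]
          gcongr
  -- bounds of Q
  have hQ1 : Q ≤ (M : ℝ) ^ (3 * m) := by
    rw [hQ]
    exact_mod_cast Nat.descFactorial_le_pow M (3 * m)
  have hQ2 : ((M : ℝ) - 3 * m) ^ (3 * m) ≤ Q := by
    have h := Nat.pow_sub_le_descFactorial M (3 * m)
    have h' : ((M + 1 - 3 * m : ℕ) : ℝ) ^ (3 * m) ≤ Q := by rw [hQ]; exact_mod_cast h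
    refine le_trans (pow_le_pow_left₀ ?_ ?_ _) h'
    · linarith
    · have hrl : 3 * m ≤ M + 1 := by
        have : (3 : ℝ) * m ≤ M := by linarith
        have : 3 * m ≤ M := by exact_mod_cast this
        omega
      rw [Nat.cast_sub hrl]
      push_cast
      linarith
  have hP0 : 0 ≤ P := by rw [hP]; positivity
  have hQ0 : 0 ≤ Q := by rw [hQ]; positivity
  -- Bernoulli
  have hB1 : (1 - 12 / (m : ℝ)) * (M + (m : ℝ) ^ 4) ^ (3 * m) ≤ ((M : ℝ) - 3 * m) ^ (3 * m) := by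
    obtain ⟨y, hy⟩ : ∃ y : ℝ, y = ((m : ℝ) ^ 4 + 3 * m) / (M + (m : ℝ) ^ 4) := ⟨_, rfl⟩
    have hd : 0 < M + (m : ℝ) ^ 4 := by positivity
    have e : (M : ℝ) - 3 * m = (1 + -y) * (M + (m : ℝ) ^ 4) := by
      rw [hy]
      field_simp
      ring
    have hy0 : 0 ≤ y := by rw [hy]; positivity
    have hy1 : y ≤ 4 / (m : ℝ) ^ 2 := by
      rw [hy, div_le_div_iff₀ hd (by positivity)]
      have h1 : ((m : ℝ) ^ 4 + 3 * m) * (m : ℝ) ^ 2 ≤ 4 * (m : ℝ) ^ 6 := by
        have h2 : (m : ℝ) ^ 4 + 3 * m ≤ 4 * (m : ℝ) ^ 4 := by linarith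
        calc ((m : ℝ) ^ 4 + 3 * m) * (m : ℝ) ^ 2 ≤ 4 * (m : ℝ) ^ 4 * (m : ℝ) ^ 2 :=
              mul_le_mul_of_nonneg_right h2 (by positivity)
          _ = 4 * (m : ℝ) ^ 6 := by ring
      have h3 : (0 : ℝ) ≤ (m : ℝ) ^ 4 := by positivity
      linarith
    have hy2 : y ≤ 1 := by
      refine hy1.trans ?_
      rw [div_le_one (by positivity)]
      nlinarith
    have hb := one_add_mul_le_pow (a := -y) (by linarith) (3 * m)
    rw [e, mul_pow]
    apply mul_le_mul_of_nonneg_right _ (by positivity)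
    refine le_trans ?_ hb
    push_cast
    have h4 : 3 * (m : ℝ) * y ≤ 12 / m := by
      calc 3 * (m : ℝ) * y ≤ 3 * m * (4 / (m : ℝ) ^ 2) :=
            mul_le_mul_of_nonneg_left hy1 (by positivity)
        _ = 12 / m := by field_simp; ring
    linarith
  have hB2 : (1 - 21 / (m : ℝ)) * (M : ℝ) ^ (3 * m) ≤ (M - (m : ℝ) ^ 4 - 6 * m) ^ (3 * m) := by
    obtain ⟨x, hx⟩ : ∃ x : ℝ, x = ((m : ℝ) ^ 4 + 6 * m) / M := ⟨_, rfl⟩
    have e : (M : ℝ) - (m : ℝ) ^ 4 - 6 * m = (1 + -x) * M := by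
      rw [hx]
      field_simp
      ring
    have hx0 : 0 ≤ x := by rw [hx]; positivity
    have hx1 : x ≤ 7 / (m : ℝ) ^ 2 := by
      rw [hx, div_le_div_iff₀ hMp (by positivity)]
      have h2 : (m : ℝ) ^ 4 + 6 * m ≤ 7 * (m : ℝ) ^ 4 := by linarith
      calc ((m : ℝ) ^ 4 + 6 * m) * (m : ℝ) ^ 2 ≤ 7 * (m : ℝ) ^ 4 * (m : ℝ) ^ 2 :=
            mul_le_mul_of_nonneg_right h2 (by positivity)
        _ = 7 * (m : ℝ) ^ 6 := by ring
        _ ≤ 7 * M := by linarith
    have hx2 : x ≤ 1 := by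
      refine hx1.trans ?_
      rw [div_le_one (by positivity)]
      nlinarith
    have hb := one_add_mul_le_pow (a := -x) (by linarith) (3 * m)
    rw [e, mul_pow]
    apply mul_le_mul_of_nonneg_right _ (by positivity)
    refine le_trans ?_ hb
    push_cast
    have h4 : 3 * (m : ℝ) * x ≤ 21 / m := by
      calc 3 * (m : ℝ) * x ≤ 3 * m * (7 / (m : ℝ) ^ 2) :=
            mul_le_mul_of_nonneg_left hx1 (by positivity)
        _ = 21 / m := by field_simp; ring
    linarith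
  have h12 : 12 / (m : ℝ) ≤ 1 / 2 := by
    rw [div_le_div_iff₀ hmp (by norm_num)]
    linarith
  have h21 : 21 / (m : ℝ) ≤ 1 := by
    rw [div_le_one hmp]
    linarith
  have hc1 : (1 - 12 / (m : ℝ)) * P ≤ Q := by
    refine le_trans ?_ (hB1.trans hQ2)
    exact mul_le_mul_of_nonneg_left hP1 (by linarith)
  have hc2 : (1 - 21 / (m : ℝ)) * Q ≤ P := by
    refine le_trans ?_ (hB2.trans hP2)
    exact mul_le_mul_of_nonneg_left hQ1 (by linarith)
  have hm1 : 0 ≤ 1 / (m : ℝ) := by positivity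
  have e12 : 12 / (m : ℝ) = 12 * (1 / m) := by ring
  have e21 : 21 / (m : ℝ) = 21 * (1 / m) := by ring
  have e24 : 24 / (m : ℝ) = 24 * (1 / m) := by ring
  rw [e12] at hc1 h12
  rw [e21] at hc2
  rw [e24]
  obtain ⟨t, ht⟩ : ∃ t : ℝ, t = 1 / (m : ℝ) := ⟨_, rfl⟩
  rw [← ht] at hc1 hc2 h12 hm1 ⊢
  have hP3 : P ≤ 2 * Q := by nlinarith
  rw [abs_le]
  constructor
  · nlinarith
  · nlinarith

theorem kap : KapStmt := by
  intro ε hε
  obtain ⟨n, hn⟩ := exists_nat_ge (24 / ε)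
  refine ⟨max 24 n, ?_⟩
  intro m M l r hm hM hl hr
  have hm24 : 24 ≤ m := (le_max_left _ _).trans hm
  have hmn : n ≤ m := (le_max_right _ _).trans hm
  have hmp : (0 : ℝ) < m := by
    have : (24 : ℝ) ≤ m := by exact_mod_cast hm24
    linarith
  have hε' : 24 / (m : ℝ) ≤ ε := by
    rw [div_le_iff₀ hmp]
    have h1 : 24 / ε ≤ m := hn.trans (by exact_mod_cast hmn)
    rw [div_le_iff₀ hε] at h1
    linarith
  -- sizes over the integers
  have h46 : 4 * m ^ 4 ≤ m ^ 6 := by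
    calc 4 * m ^ 4 ≤ m ^ 2 * m ^ 4 := Nat.mul_le_mul_right _ (by nlinarith)
      _ = m ^ 6 := by ring
  have h14 : 12 * m ≤ m ^ 4 := by
    calc 12 * m ≤ m ^ 3 * m := Nat.mul_le_mul_right _ (by
          calc 12 ≤ 24 ^ 3 := by norm_num
            _ ≤ m ^ 3 := Nat.pow_le_pow_left hm24 3)
      _ = m ^ 4 := by ring
  have hl' : 2 * l ≤ M + m ^ 4 := by
    have h := (abs_le.mp hl).2
    have h' : 2 * (l : ℤ) ≤ M + (m : ℤ) ^ 4 := by linarith
    exact_mod_cast h'
  have hl'' : M ≤ 2 * l + m ^ 4 := by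
    have h := (abs_le.mp hl).1
    have h' : (M : ℤ) ≤ 2 * l + (m : ℤ) ^ 4 := by linarith
    exact_mod_cast h'
  have hlM : l ≤ M := by omega
  have hrl : r ≤ l := by omega
  have hsK : 3 * m - r ≤ M - l := by omega
  have hcore := kap_core m M l r hm24 hM hl hr hlM
  obtain ⟨l', rfl⟩ : ∃ l', l = l' + r := ⟨l - r, by omega⟩
  obtain ⟨s, hs⟩ : ∃ s, s = 3 * m - r := ⟨_, rfl⟩
  obtain ⟨K', hK'⟩ : ∃ K', M - (l' + r) = K' + s := ⟨M - (l' + r) - s, by omega⟩
  have hM2 : M = l' + r + (K' + s) := by omega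
  have hid := kap_id l' K' r s
  have e1 : M - 3 * m = l' + K' := by omega
  have e2 : l' + r - r = l' := by omega
  have e3 : r + s = 3 * m := by omega
  rw [e1, e2]
  rw [hK', ← hs] at hcore
  rw [← hM2, e3] at hid
  have hid' : ((l' + K').choose l' : ℝ) * (M.descFactorial (3 * m) : ℝ)
      = (M.choose (l' + r) : ℝ) * ((l' + r).descFactorial r : ℝ) * ((K' + s).descFactorial s : ℝ) := by
    exact_mod_cast hid
  have hQ : (0 : ℝ) < (M.descFactorial (3 * m) : ℝ) := by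
    have h : 0 < M.descFactorial (3 * m) := by
      rw [Nat.pos_iff_ne_zero]
      intro h
      rw [Nat.descFactorial_eq_zero_iff_lt] at h
      omega
    exact_mod_cast h
  have hC : (0 : ℝ) ≤ (M.choose (l' + r) : ℝ) := by positivity
  have h1 : |(2 : ℝ) ^ (3 * m) * ((l' + K').choose l' : ℝ) - (M.choose (l' + r) : ℝ)|
      * (M.descFactorial (3 * m) : ℝ)
      ≤ 24 / m * (M.choose (l' + r) : ℝ) * (M.descFactorial (3 * m) : ℝ) := by
    calc |(2 : ℝ) ^ (3 * m) * ((l' + K').choose l' : ℝ) - (M.choose (l' + r) : ℝ)|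
        * (M.descFactorial (3 * m) : ℝ)
        = |((2 : ℝ) ^ (3 * m) * ((l' + K').choose l' : ℝ) - (M.choose (l' + r) : ℝ))
          * (M.descFactorial (3 * m) : ℝ)| := by rw [abs_mul, abs_of_pos hQ]
      _ = |(M.choose (l' + r) : ℝ) * ((2 : ℝ) ^ (3 * m) * ((l' + r).descFactorial r : ℝ)
          * ((K' + s).descFactorial s : ℝ) - (M.descFactorial (3 * m) : ℝ))| := by
          congr 1
          have : (2 : ℝ) ^ (3 * m) * (((l' + K').choose l' : ℝ) * (M.descFactorial (3 * m) : ℝ))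
              = (2 : ℝ) ^ (3 * m) * ((M.choose (l' + r) : ℝ) * ((l' + r).descFactorial r : ℝ)
                * ((K' + s).descFactorial s : ℝ)) := by rw [hid']
          linarith
      _ = (M.choose (l' + r) : ℝ) * |(2 : ℝ) ^ (3 * m) * ((l' + r).descFactorial r : ℝ)
          * ((K' + s).descFactorial s : ℝ) - (M.descFactorial (3 * m) : ℝ)| := by
          rw [abs_mul, abs_of_nonneg hC]
      _ ≤ (M.choose (l' + r) : ℝ) * (24 / m * (M.descFactorial (3 * m) : ℝ)) :=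
          mul_le_mul_of_nonneg_left hcore hC
      _ = 24 / m * (M.choose (l' + r) : ℝ) * (M.descFactorial (3 * m) : ℝ) := by ring
  have h2 := le_of_mul_le_mul_right h1 hQ
  exact h2.trans (mul_le_mul_of_nonneg_right hε' hC)

end Pool.Agent.WIR.H90
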